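import Pool.Agent.RGS.C7

/-!
# The Auslander-Reiten conjecture and syzygies of finite type (MP_68f647_al)

Let `X` be a finitely generated module over a finite-dimensional algebra `A` with
`Ext^i(X, X) = 0` and `Ext^i(X, A) = 0` for all `i ≥ 1`, and let `V` be a finitely generated module.
If infinitely many syzygies of `X` are projective or have a non-projective direct summand which is
the cokernel of a monomorphism between modules in `add V`, then `X` is projective. In particular
the Auslander-Reiten conjecture holds for all Igusa-Todorov algebras.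
-/

set_option autoImplicit false

open CategoryTheory

namespace Pool.Agent.Results.MP_68f647_al.AuslanderReiten

/-- `L` is a syzygy of `M`: there is an exact sequence `0 → L → P → M → 0` with `P` finitely
generated projective -/
def Syz (A : Type) [Ring A] (M L : Type) [AddCommGroup M] [Module A M] [AddCommGroup L]
    [Module A L] : Prop :=
  ∃ (P : ModuleCat.{0} A) (i : L →ₗ[A] P) (p : P →ₗ[A] M), Module.Projective A P ∧
    Module.Finite A P ∧ Function.Injective i ∧ Function.Surjective p ∧
    LinearMap.range i = LinearMap.ker p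

/-- `M ∈ add N`: `M` is a direct summand of a finite power of `N` -/
def InAdd (A : Type) [Ring A] (M N : Type) [AddCommGroup M] [Module A M] [AddCommGroup N]
    [Module A N] : Prop :=
  ∃ (n : ℕ) (i : Fin n → (M →ₗ[A] N)) (r : Fin n → (N →ₗ[A] M)),
    ∑ k, r k ∘ₗ i k = LinearMap.id

/-- every homomorphism `D → X` factors through a projective module -/
def StZ (A : Type) [Ring A] (D X : Type) [AddCommGroup D] [Module A D] [AddCommGroup X]
    [Module A X] : Prop :=
  ∀ f : D →ₗ[A] X, ∃ (Q : ModuleCat.{0} A) (g : D →ₗ[A] Q) (h : Q →ₗ[A] X),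
    Module.Projective A Q ∧ h ∘ₗ g = f

/-- `W` has a presentation `0 → V₁ × D₁ → V₀ × D₀ → W → 0` with `V₁` and `V₀` in `add V`, and
`D₁`, `D₀` finitely generated with the properties `R₁`, `R₀` -/
def PresR (A : Type) [Ring A] (V W : Type) [AddCommGroup V] [Module A V] [AddCommGroup W]
    [Module A W] (R₁ R₀ : ModuleCat.{0} A → Prop) : Prop :=
  ∃ (V₁ V₀ D₁ D₀ : ModuleCat.{0} A) (a : (V₁ × D₁) →ₗ[A] (V₀ × D₀)) (b : (V₀ × D₀) →ₗ[A] W),
    InAdd A V₁ V ∧ InAdd A V₀ V ∧ Module.Finite A D₁ ∧ Module.Finite A D₀ ∧ R₁ D₁ ∧ R₀ D₀ ∧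
    Function.Injective a ∧ Function.Surjective b ∧ LinearMap.range a = LinearMap.ker b

/-- `M` is projective, or `M` has a non-projective direct summand `W` with a presentation
`0 → V₁ × D₁ → V₀ × D₀ → W → 0` as in `PresR` -/
def Good (A : Type) [Ring A] (V M : Type) [AddCommGroup V] [Module A V] [AddCommGroup M]
    [Module A M] (R₁ R₀ : ModuleCat.{0} A → Prop) : Prop :=
  Module.Projective A M ∨ ∃ W W' : Submodule A M, IsCompl W W' ∧ ¬ Module.Projective A W ∧
    PresR A V W R₁ R₀

/-- `Ext^i(X, Y) = 0` for all `i ≥ 1` -/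
def EVan (A : Type) [Ring A] [HasExt.{1} (ModuleCat.{0} A)] (X Y : ModuleCat.{0} A) : Prop :=
  ∀ i : ℕ, 1 ≤ i → Subsingleton (Abelian.Ext.{1} X Y i)

/-- the Auslander-Reiten conjecture holds for `A` -/
def ARC (A : Type) [Ring A] [HasExt.{1} (ModuleCat.{0} A)] : Prop :=
  ∀ X : ModuleCat.{0} A, Module.Finite A X → EVan A X X → EVan A X (ModuleCat.of A A) →
    Module.Projective A X

/-- `Ext^i(M, A) = 0` for all `i ≥ 1` and all finitely generated injective modules `M`, that is
`Ext^i(D(A), A) = 0` for all `i ≥ 1` -/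
def ExtVan (A : Type) [Ring A] [HasExt.{1} (ModuleCat.{0} A)] : Prop :=
  ∀ M : ModuleCat.{0} A, Module.Injective A M → Module.Finite A M →
    ∀ i : ℕ, 1 ≤ i → Subsingleton (Abelian.Ext.{1} M (ModuleCat.of A A) i)

/-- the first Tachikawa conjecture holds for `A` -/
def TC1 (A : Type) [Ring A] [HasExt.{1} (ModuleCat.{0} A)] : Prop :=
  ExtVan A → Module.Injective A A

/-- `W` has a presentation `0 → V₁ → V₀ → W → 0` with `V₁` and `V₀` in `add V` -/
def Pres (A : Type) [Ring A] (V W : Type) [AddCommGroup V] [Module A V] [AddCommGroup W]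
    [Module A W] : Prop :=
  ∃ (V₁ V₀ : ModuleCat.{0} A) (a : V₁ →ₗ[A] V₀) (b : V₀ →ₗ[A] W), InAdd A V₁ V ∧ InAdd A V₀ V ∧
    Function.Injective a ∧ Function.Surjective b ∧ LinearMap.range a = LinearMap.ker b

/-- Igusa-Todorov algebras: for some `n` and some finitely generated module `V` every `n`-th
syzygy `L` of a module has a presentation `0 → V₁ → V₀ → L → 0` with `V₁`, `V₀` in `add V` -/
def IsIT (A : Type) [Ring A] : Prop :=
  ∃ (V : ModuleCat.{0} A) (n : ℕ), Module.Finite A V ∧ ∀ Z : ℕ → ModuleCat.{0} A,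
    (∀ k, Syz A (Z k) (Z (k + 1))) → Pres A V (Z n)

/-- the modules annihilated by `I` are of finite representation type: for some finitely generated
module `V` every finitely generated module annihilated by `I` is in `add V` -/
def RepFin (A : Type) [Ring A] (I : Ideal A) : Prop :=
  ∃ V : ModuleCat.{0} A, Module.Finite A V ∧ ∀ X : ModuleCat.{0} A, Module.Finite A X →
    (∀ a ∈ I, ∀ x : X, a • x = 0) → InAdd A X V

/-- **Theorem.** Let `A` be a finite-dimensional algebra over a field `K`.
(1) Let `Z 0, Z 1, …` be the syzygies in a resolution of a module `Z 0` by finitely generated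
projective modules, where `Ext^i(Z 0, Z 0) = 0 = Ext^i(Z 0, A)` for all `i ≥ 1`, and let `V` be a
finitely generated module. If infinitely many `Z n` are projective or have a non-projective direct
summand `W` with a presentation `0 → V₁ × D₁ → V₀ × D₀ → W → 0` with `V₁`, `V₀` in `add V`, where
`D₁`, `D₀` are finitely generated and all homomorphisms `D₁ → Z k`, `k ≤ n + 1`, and `D₀ → Z k`,
`k ≤ n`, factor through projective modules, then `Z 0` is projective.
(2) So the Auslander-Reiten conjecture and the first Tachikawa conjecture hold for `A` if `A` is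
an Igusa-Todorov algebra,
(3) if there are ideals `I₁`, `I₂` with `I₁ I₂ J = 0` (`J` is the radical) such that the modules
annihilated by `I₁` and those annihilated by `I₂` are of finite representation type,
(4) and if `J^3 = 0`. -/
theorem result (K A : Type) [Field K] [Ring A] [Algebra K A] [FiniteDimensional K A]
    [HasExt.{1} (ModuleCat.{0} A)] :
    (∀ Z : ℕ → ModuleCat.{0} A, (∀ n, Syz A (Z n) (Z (n + 1))) → EVan A (Z 0) (Z 0) →
      EVan A (Z 0) (ModuleCat.of A A) → ∀ V : ModuleCat.{0} A, Module.Finite A V →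
      {n | Good A V (Z n) (fun D => ∀ k, k ≤ n + 1 → StZ A D (Z k))
        (fun D => ∀ k, k ≤ n → StZ A D (Z k))}.Infinite → Module.Projective A (Z 0)) ∧
    (IsIT A → ARC A ∧ TC1 A) ∧
    (∀ I₁ I₂ : Ideal A, (∀ a ∈ I₁, ∀ b ∈ I₂, ∀ c ∈ Ring.jacobson A, a * b * c = 0) →
      RepFin A I₁ → RepFin A I₂ → ARC A ∧ TC1 A) ∧
    ((∀ a ∈ Ring.jacobson A, ∀ b ∈ Ring.jacobson A, ∀ c ∈ Ring.jacobson A, a * b * c = 0) →
      ARC A ∧ TC1 A) := by
  have hT : ARC A → ARC A ∧ TC1 A := fun h => ⟨h, RGS.tc1_of_arc K h⟩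
  exact ⟨fun Z hZ h1 h2 V hV h => RGS.proj_of_infD K (Z := fun n => Z n) hZ h1 h2 V hV h,
    fun h => hT (RGS.arc_of_it K h), fun I₁ I₂ h h1 h2 => hT (RGS.arc_of_ideals K I₁ I₂ h h1 h2),
    fun h => hT (RGS.arc_of_cube K h)⟩

end Pool.Agent.Results.MP_68f647_al.AuslanderReiten
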