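import Pool.Agent.NTC.Final
import Pool.Agent.NTC.W1

/-!
# Nakayama versus first Tachikawa conjecture for a single algebra (MP_68f647_al)

For every field `K`: the question Q1 for all finite-dimensional `K`-algebras (`NC A` implies `TC1 A`
algebra by algebra) has a positive answer if and only if the Nakayama conjecture holds for all
finite-dimensional `K`-algebras.
-/

set_option autoImplicit false

open CategoryTheory

namespace Pool.Agent.Results.MP_68f647_al.EquivNakayama

/-- infinite dominant dimension: the regular module has a coresolution by modules which are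
projective and injective -/
def DomInf (A : Type) [Ring A] : Prop :=
  ∃ (I : ℕ → ModuleCat.{0} A) (ε : A →ₗ[A] I 0) (d : ∀ n, I n →ₗ[A] I (n + 1)),
    Function.Injective ε ∧ LinearMap.range ε = LinearMap.ker (d 0) ∧
    (∀ n, LinearMap.range (d n) = LinearMap.ker (d (n + 1))) ∧
    ∀ n, Module.Projective A (I n) ∧ Module.Injective A (I n)

/-- the Nakayama conjecture holds for `A` -/
def NC (A : Type) [Ring A] : Prop := DomInf A → Module.Injective A A

/-- `Ext^i(M, A) = 0` for all `i ≥ 1` and all finitely generated injective modules `M`, that is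
`Ext^i(D(A), A) = 0` for all `i ≥ 1` -/
def ExtVan (A : Type) [Ring A] [HasExt.{1} (ModuleCat.{0} A)] : Prop :=
  ∀ M : ModuleCat.{0} A, Module.Injective A M → Module.Finite A M →
    ∀ i : ℕ, 1 ≤ i → Subsingleton (Abelian.Ext.{1} M (ModuleCat.of A A) i)

/-- the first Tachikawa conjecture holds for `A` -/
def TC1 (A : Type) [Ring A] [HasExt.{1} (ModuleCat.{0} A)] : Prop :=
  ExtVan A → Module.Injective A A

theorem domInf_iff {K A : Type} [Field K] [Ring A] [Algebra K A] (h : FiniteDimensional K A) :
    DomInf A ↔ NTC.DomInf A :=
  ⟨fun hD => NTC.W1.main h hD, fun hD => NTC.W1.of_domInf hD⟩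

theorem nc_iff {K A : Type} [Field K] [Ring A] [Algebra K A] (h : FiniteDimensional K A) :
    NC A ↔ NTC.NC A := by
  unfold NC NTC.NC
  rw [domInf_iff h]

/-- **Theorem.** For every field `K`, the implication from the Nakayama conjecture for `A` to the
first Tachikawa conjecture for `A` holds for all finite-dimensional `K`-algebras `A` if and only if
the Nakayama conjecture holds for all finite-dimensional `K`-algebras. -/
theorem result (K : Type) [Field K] :
    (∀ (A : Type) [Ring A] [Algebra K A] [FiniteDimensional K A]
      [HasExt.{1} (ModuleCat.{0} A)], NC A → TC1 A) ↔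
    (∀ (A : Type) [Ring A] [Algebra K A] [FiniteDimensional K A], NC A) := by
  constructor
  · intro H A _ _ hA
    rw [nc_iff hA]
    refine (NTC.main K).1 ?_ A
    intro B _ _ hB _ hN
    exact H B ((nc_iff hB).2 hN)
  · intro H A _ _ hA _ _
    refine (NTC.main K).2 ?_ A ?_
    · intro B _ _ hB
      exact (nc_iff hB).1 (H B)
    · exact (nc_iff hA).1 (H A)

end Pool.Agent.Results.MP_68f647_al.EquivNakayama
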