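import Pool.Agent.GTC.Fin

/-!
# The first Tachikawa conjecture for graded commutative algebras (MP_68f647_al)

Let `A` be a finite-dimensional commutative algebra over a field of characteristic not two, with a
grading `A = A_0 ⊕ A_1 ⊕ ... ⊕ A_s` such that `A_0` is reduced (for example `A_0` is the field).
If `Ext^i(D(A), A) = 0` for `1 ≤ i ≤ 4s + 2` then `A` is selfinjective. The same holds for algebras
which are commutative up to a commutation factor, for example graded commutative algebras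
(`ab = (-1)^{|a||b|} ba`), and for products of such algebras.
-/

set_option autoImplicit false

open CategoryTheory

namespace Pool.Agent.Results.MP_68f647_al.GradedCommutative

/-- `Ext^i(M, A) = 0` for `1 ≤ i ≤ N` and all finitely generated injective modules `M`, that is
`Ext^i(D(A), A) = 0` for `1 ≤ i ≤ N` -/
def ExtVanTo (N : ℕ) (A : Type) [Ring A] [HasExt.{1} (ModuleCat.{0} A)] : Prop :=
  ∀ M : ModuleCat.{0} A, Module.Injective A M → Module.Finite A M →
    ∀ i : ℕ, 1 ≤ i → i ≤ N → Subsingleton (Abelian.Ext.{1} M (ModuleCat.of A A) i)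

/-- the first Tachikawa conjecture holds for `A` -/
def TC1 (A : Type) [Ring A] [HasExt.{1} (ModuleCat.{0} A)] : Prop :=
  (∀ M : ModuleCat.{0} A, Module.Injective A M → Module.Finite A M →
    ∀ i : ℕ, 1 ≤ i → Subsingleton (Abelian.Ext.{1} M (ModuleCat.of A A) i)) → Module.Injective A A

/-- `A` is a finite-dimensional algebra over a field `k` of characteristic not two, graded by an
abelian group `Γ`, commutative up to the commutation factor `ε` (`ab = ε(α, β) ba` for `a`, `b`
homogeneous of degrees `α`, `β`), the component of degree zero is `k`, and there is a homomorphism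
`w : Γ → ℤ` with `0 < w γ ≤ s` for all nonzero degrees `γ` of `A` -/
def ColourComm (s : ℕ) (A : Type) [Ring A] : Prop :=
  ∃ (k : Type) (_ : Field k) (_ : Algebra k A) (Γ : Type) (_ : AddCommGroup Γ)
    (_ : DecidableEq Γ) (𝒜 : Γ → Submodule k A) (_ : GradedAlgebra 𝒜) (ε : Γ → Γ → k)
    (w : Γ →+ ℤ),
    FiniteDimensional k A ∧ (2 : k) ≠ 0 ∧
    (∀ α β γ, ε (α + β) γ = ε α γ * ε β γ) ∧ (∀ α β, ε α β * ε β α = 1) ∧
    (∀ α β, ∀ a ∈ 𝒜 α, ∀ b ∈ 𝒜 β, a * b = ε α β • (b * a)) ∧
    (∀ a ∈ 𝒜 0, ∃ c : k, a = algebraMap k A c) ∧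
    ∀ γ, γ ≠ 0 → 𝒜 γ ≠ ⊥ → 0 < w γ ∧ w γ ≤ s

theorem ColourComm.col {s : ℕ} {A : Type} [Ring A] (h : ColourComm s A) : GTC.Col s A := by
  obtain ⟨k, _, _, Γ, _, _, 𝒜, _, ε, w, h1, h2, h3, h4, h5, h6, h7⟩ := h
  refine ⟨k, inferInstance, inferInstance, Γ, inferInstance, inferInstance, 𝒜, ε, w, h1, h2, ?_,
    fun γ hγ => ?_⟩
  · exact
      { cf := ⟨h3, h4⟩
        int := DirectSum.Decomposition.isInternal 𝒜
        one := SetLike.GradedOne.one_mem
        mul := fun ha hb => SetLike.GradedMul.mul_mem ha hb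
        comm := fun ha hb => h5 _ _ _ ha _ hb
        zero := h6
        pos := fun γ h0 h => (h7 γ h0 h).1 }
  · by_cases h0 : γ = 0
    · rw [h0, map_zero]
      exact Int.natCast_nonneg s
    · exact (h7 γ h0 hγ).2

/-- **Theorem.**
(1) Let `A` be a finite-dimensional commutative algebra over a field `K` of characteristic not two,
graded by the natural numbers, such that `A_0` is reduced. Then the first Tachikawa conjecture holds
for `A`, and if `A_n = 0` for `n > s` and `Ext^i(D(A), A) = 0` for `1 ≤ i ≤ 4s + 2` then `A` is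
selfinjective.
(2) Let `A` be a product of rings `B j` which satisfy `ColourComm s`, and `Ext^i(M, A) = 0` for
`1 ≤ i ≤ 4s + 2` and all finitely generated injective modules `M`. Then `A` is selfinjective. -/
theorem result :
    (∀ (K A : Type) [Field K] [CommRing A] [Algebra K A] [FiniteDimensional K A]
      [HasExt.{1} (ModuleCat.{0} A)] (𝒜 : ℕ → Submodule K A) [GradedAlgebra 𝒜], (2 : K) ≠ 0 →
      (∀ a ∈ 𝒜 0, IsNilpotent a → a = 0) →
      TC1 A ∧ ∀ s : ℕ, (∀ n, s < n → 𝒜 n = ⊥) → ExtVanTo (4 * s + 2) A → Module.Injective A A) ∧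
    (∀ (A : Type) [Ring A] [HasExt.{1} (ModuleCat.{0} A)] (J : Type) (B : J → Type)
      [∀ j, Ring (B j)] (s : ℕ), Nonempty (A ≃+* ∀ j, B j) → (∀ j, ColourComm s (B j)) →
      ExtVanTo (4 * s + 2) A → Module.Injective A A) := by
  refine ⟨?_, ?_⟩
  · intro K A _ _ _ _ _ 𝒜 _ h2 hr
    have h3 : ∀ s : ℕ, (∀ n, s < n → 𝒜 n = ⊥) → ExtVanTo (4 * s + 2) A →
        Module.Injective A A :=
      fun s hs hT => GTC.tc1_comm K A 𝒜 h2 hr s hs hT
    refine ⟨fun hT => ?_, h3⟩
    have h4 : {n | 𝒜 n ≠ ⊥}.Finite :=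
      WellFoundedGT.finite_ne_bot_of_iSupIndep
        (DirectSum.Decomposition.isInternal 𝒜).submodule_iSupIndep
    obtain ⟨s, hs⟩ := h4.bddAbove
    refine h3 s (fun n hn => ?_) fun M h5 h6 i hi _ => hT M h5 h6 i hi
    by_contra h7
    exact absurd (hs h7) (not_le.2 hn)
  · intro A _ _ J B _ s ⟨f⟩ h hT
    exact GTC.tc1_of_pi B f s (fun j => (h j).col) hT

end Pool.Agent.Results.MP_68f647_al.GradedCommutative
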