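import Pool.Agent.RGS.C7

/-!
# The first Tachikawa conjecture and syzygies of finite type (MP_68f647_al)

Let `A` be a finite-dimensional algebra with `Ext^i(D(A), A) = 0` for all `i ≥ 1`. If, for some
finitely generated module `V`, infinitely many syzygies of `D(A)` are projective or have a
non-projective direct summand which is the cokernel of a monomorphism between modules in `add V`,
up to torsionfree modules, then `A` is selfinjective. In particular the first Tachikawa conjecture
holds for all Igusa-Todorov algebras.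
-/

set_option autoImplicit false

open CategoryTheory

namespace Pool.Agent.Results.MP_68f647_al.IgusaTodorov

/-- `L` is a syzygy of `M`: there is an exact sequence `0 → L → P → M → 0` with `P` finitely
generated projective -/
def Syz (A : Type) [Ring A] (M L : Type) [AddCommGroup M] [Module A M] [AddCommGroup L]
    [Module A L] : Prop :=
  ∃ (P : ModuleCat.{0} A) (i : L →ₗ[A] P) (p : P →ₗ[A] M), Module.Projective A P ∧
    Module.Finite A P ∧ Function.Injective i ∧ Function.Surjective p ∧
    LinearMap.range i = LinearMap.ker p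

/-- `M ∈ add N`: `M` is a direct summand of a finite power of `N` -/
def InAdd (A : Type) [Ring A] (M N : Type) [AddCommGroup M] [Module A M] [AddCommGroup N]
    [Module A N] : Prop :=
  ∃ (n : ℕ) (i : Fin n → (M →ₗ[A] N)) (r : Fin n → (N →ₗ[A] M)),
    ∑ k, r k ∘ₗ i k = LinearMap.id

/-- `W` has a presentation `0 → V₁ × D₁ → V₀ × D₀ → W → 0` with `V₁` and `V₀` in `add V`, and
`D₁`, `D₀` finitely generated with the properties `R₁`, `R₀` -/
def PresR (A : Type) [Ring A] (V W : Type) [AddCommGroup V] [Module A V] [AddCommGroup W]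
    [Module A W] (R₁ R₀ : ModuleCat.{0} A → Prop) : Prop :=
  ∃ (V₁ V₀ D₁ D₀ : ModuleCat.{0} A) (a : (V₁ × D₁) →ₗ[A] (V₀ × D₀)) (b : (V₀ × D₀) →ₗ[A] W),
    InAdd A V₁ V ∧ InAdd A V₀ V ∧ Module.Finite A D₁ ∧ Module.Finite A D₀ ∧ R₁ D₁ ∧ R₀ D₀ ∧
    Function.Injective a ∧ Function.Surjective b ∧ LinearMap.range a = LinearMap.ker b

/-- `M` is projective, or `M` has a non-projective direct summand `W` with a presentation
`0 → V₁ × D₁ → V₀ × D₀ → W → 0` as in `PresR` -/
def Good (A : Type) [Ring A] (V M : Type) [AddCommGroup V] [Module A V] [AddCommGroup M]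
    [Module A M] (R₁ R₀ : ModuleCat.{0} A → Prop) : Prop :=
  Module.Projective A M ∨ ∃ W W' : Submodule A M, IsCompl W W' ∧ ¬ Module.Projective A W ∧
    PresR A V W R₁ R₀

/-- `D` is `k`-torsionfree: there are exact sequences `0 → D_j → Q_j → D_{j+1} → 0`, `j < k`, with
`D_0 = D`, `Q_j` finitely generated projective and `Ext^1(D_{j+1}, A) = 0` -/
def TF (A : Type) [Ring A] [HasExt.{1} (ModuleCat.{0} A)] : ℕ → ModuleCat.{0} A → Prop
  | 0, _ => True
  | k + 1, D => ∃ (Q N : ModuleCat.{0} A) (i : D →ₗ[A] Q) (p : Q →ₗ[A] N),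
      Module.Projective A Q ∧ Module.Finite A Q ∧ Function.Injective i ∧ Function.Surjective p ∧
      LinearMap.range i = LinearMap.ker p ∧
      Subsingleton (Abelian.Ext.{1} N (ModuleCat.of A A) 1) ∧ TF A k N

/-- `Ext^i(M, A) = 0` for all `i ≥ 1` and all finitely generated injective modules `M`, that is
`Ext^i(D(A), A) = 0` for all `i ≥ 1` -/
def ExtVan (A : Type) [Ring A] [HasExt.{1} (ModuleCat.{0} A)] : Prop :=
  ∀ M : ModuleCat.{0} A, Module.Injective A M → Module.Finite A M →
    ∀ i : ℕ, 1 ≤ i → Subsingleton (Abelian.Ext.{1} M (ModuleCat.of A A) i)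

/-- the first Tachikawa conjecture holds for `A` -/
def TC1 (A : Type) [Ring A] [HasExt.{1} (ModuleCat.{0} A)] : Prop :=
  ExtVan A → Module.Injective A A

theorem tf_iff {A : Type} [Ring A] [HasExt.{1} (ModuleCat.{0} A)] (k : ℕ) :
    ∀ D : ModuleCat.{0} A, TF A k D ↔ RGS.TF A k D := by
  induction k with
  | zero => exact fun D => Iff.rfl
  | succ k ih =>
    intro D
    constructor
    · rintro ⟨Q, N, i, p, h1, h2, h3, h4, h5, h6, h7⟩
      exact ⟨Q, N, i, p, h1, h2, h3, h4, h5, h6, (ih N).1 h7⟩
    · rintro ⟨Q, N, i, p, h1, h2, h3, h4, h5, h6, h7⟩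
      exact ⟨Q, N, i, p, h1, h2, h3, h4, h5, h6, (ih N).2 h7⟩

/-- Lat-Igusa-Todorov algebras with respect to torsionfree modules: for some `n` and some finitely
generated module `V` every `n`-th syzygy `L` of a module has a presentation
`0 → V₁ × D₁ → V₀ × D₀ → L → 0` with `V₁`, `V₀` in `add V` and `D₁`, `D₀` finitely generated and
`k`-torsionfree for all `k` (for example zero, projective or Gorenstein projective) -/
def IsLIT (A : Type) [Ring A] [HasExt.{1} (ModuleCat.{0} A)] : Prop :=
  ∃ (V : ModuleCat.{0} A) (n : ℕ), Module.Finite A V ∧ ∀ Z : ℕ → ModuleCat.{0} A,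
    (∀ k, Syz A (Z k) (Z (k + 1))) →
    PresR A V (Z n) (fun D => ∀ k, TF A k D) (fun D => ∀ k, TF A k D)

/-- **Theorem.** Let `A` be a finite-dimensional algebra over a field `K`.
(1) Let `Z 0, Z 1, …` be the syzygies in a resolution of `Z 0 = D(A)` by finitely generated
projective modules, and let `V` be a finitely generated module. If infinitely many `Z n` are
projective or have a non-projective direct summand `W` with a presentation
`0 → V₁ × D₁ → V₀ × D₀ → W → 0` with `V₁`, `V₀` in `add V`, `D₁` finitely generated and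
`(n+2)`-torsionfree and `D₀` finitely generated and `(n+1)`-torsionfree, then the first Tachikawa
conjecture holds for `A`.
(2) So it holds for all Lat-Igusa-Todorov algebras with respect to torsionfree modules. -/
theorem result (K A : Type) [Field K] [Ring A] [Algebra K A] [FiniteDimensional K A]
    [HasExt.{1} (ModuleCat.{0} A)] :
    (∀ Z : ℕ → ModuleCat.{0} A, (∀ n, Syz A (Z n) (Z (n + 1))) →
      Nonempty (Z 0 ≃ₗ[A] NTC.DD K A) → ∀ V : ModuleCat.{0} A, Module.Finite A V →
      {n | Good A V (Z n) (TF A (n + 2)) (TF A (n + 1))}.Infinite → TC1 A) ∧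
    (IsLIT A → TC1 A) := by
  refine ⟨?_, ?_⟩
  · rintro Z hZ ⟨e⟩ V hV h hT
    refine RGS.tc1_of_inf K (Z := fun n => Z n) hZ e hT V hV (h.mono ?_)
    rintro n (hn | ⟨W, W', h3, h4, h5⟩)
    · exact Or.inl hn
    · have h5' : RGS.PresR A V W (TF A (n + 2)) (TF A (n + 1)) := h5
      exact Or.inr ⟨W, W', h3, h4, h5'.mono (fun D hD => (tf_iff _ D).1 hD)
        (fun D hD => (tf_iff _ D).1 hD)⟩
  · rintro ⟨V, n, hV, h⟩
    refine RGS.tc1_of_lit K ⟨V, n, hV, fun Z _ hZ => ?_⟩
    have h5 : RGS.PresR A V (Z n) (fun D => ∀ k, TF A k D) (fun D => ∀ k, TF A k D) := h Z hZ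
    exact h5.mono (fun D hD k => (tf_iff k D).1 (hD k)) (fun D hD k => (tf_iff k D).1 (hD k))

end Pool.Agent.Results.MP_68f647_al.IgusaTodorov
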